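import Pool.Agent.H23.PL.Targets

/-!
# The number of the tuples of large primes with a square
-/

set_option autoImplicit false

open Finset Polynomial Pool.Agent.H23.PL

namespace Pool.Agent.H59.PLD

/-- The corners in the increasing order. -/
def cntQ {t : ℕ} (a b : Fin t → ℕ) (l : Fin t) (c : Bool) : ℕ :=
  if c then max (a l) (b l) else min (a l) (b l)

theorem cntQ_eq {t : ℕ} (a b : Fin t → ℕ) (ε : Fin t → Bool) :
    (fun l => cntQ a b l (ε l)) =
      fun l => if (if a l < b l then ε l else !(ε l)) then b l else a l := by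
  funext l
  unfold cntQ
  by_cases h : a l < b l
  · rw [if_pos h]
    cases ε l
    · simp [h.le]
    · simp [h.le]
  · rw [if_neg h]
    have h' : b l ≤ a l := not_lt.1 h
    cases ε l
    · simp [h']
    · simp [h']

/-- No box in a cell. -/
theorem cnt_nobox {u L : ℕ → ℕ} {t m M : ℕ} {y : ℝ} {η : ℝ} (ht : 1 ≤ t) (hm : 1 ≤ m)
    (hη : η = 1 / (64 * t * 2 ^ t * m)) (hη0 : 0 < η) (hη1 : η ≤ 1) (hL : PellL u L)
    (hMm : M ≤ m)
    (hN : ∀ u L : ℕ → ℕ, PellL u L → ∀ (m : ℕ)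
      (q : Fin t → Bool → ℕ), M ≤ m → (∀ l b, (q l b).Prime ∧ m ^ 2 < q l b) →
      (∀ l, q l false < q l true) →
      (∀ l, 64 * t * 2 ^ t * m * (q l true - q l false) ≤ q l false) →
      ¬ ∀ ε : Fin t → Bool, Function.Injective (fun l => q l (ε l)) ∧
        IsSquare (L (m * ∏ l, q l (ε l))))
    (hCEL : T_CEL) (X : Finset (Fin t → ℕ)) (c : Fin t → ℕ)
    (hX : ∀ q ∈ X, q ∈ TS L m t y ∧ ∀ l, cel η (q l) = c l) :
    ¬ ∃ a b : Fin t → ℕ, (∀ l, a l ≠ b l) ∧
      ∀ ε : Fin t → Bool, (fun l => if ε l then b l else a l) ∈ X := by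
  rintro ⟨a, b, hab, hbox⟩
  obtain ⟨hC1, hC2, -⟩ := hCEL η hη0 hη1
  have hmem : ∀ ε : Fin t → Bool, (fun l => cntQ a b l (ε l)) ∈ X := fun ε => by
    rw [cntQ_eq]
    exact hbox fun l => if a l < b l then ε l else !(ε l)
  have hT := fun ε => hX _ (hmem ε)
  have hp : ∀ l c, (cntQ a b l c).Prime ∧ m ^ 2 < cntQ a b l c := fun l c =>
    (hT fun _ => c).1.2.1 l
  have hce : ∀ l d, cel η (cntQ a b l d) = c l := fun l d => (hT fun _ => d).2 l
  have hlt : ∀ l, cntQ a b l false < cntQ a b l true := fun l => by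
    have := hab l
    simp only [cntQ, Bool.false_eq_true, if_false, if_true]
    omega
  refine hN u L hL m (cntQ a b) hMm hp hlt (fun l => ?_) fun ε =>
    ⟨(hT ε).1.1.injective, (hT ε).1.2.2.2⟩
  have h1 : cntQ a b l false ∈ Cl η (c l) := by
    have := hC1 _ (hp l false).1.one_le
    rwa [hce] at this
  have h2 : cntQ a b l true ∈ Cl η (c l) := by
    have := hC1 _ (hp l true).1.one_le
    rwa [hce] at this
  have h3 := hC2 _ _ _ h1 h2
  have hD : (0 : ℝ) < 64 * t * 2 ^ t * m := by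
    have h4 : (0 : ℝ) < t := by exact_mod_cast ht
    have h5 : (0 : ℝ) < m := by exact_mod_cast hm
    positivity
  have h6 : ((64 * t * 2 ^ t * m * (cntQ a b l true - cntQ a b l false) : ℕ) : ℝ) ≤
      (cntQ a b l false : ℝ) := by
    rw [Nat.cast_mul, Nat.cast_sub (hlt l).le]
    push_cast
    have h7 : (cntQ a b l true : ℝ) - cntQ a b l false ≤ cntQ a b l false * η := by
      linarith
    calc (64 * t * 2 ^ t * m : ℝ) * ((cntQ a b l true : ℝ) - cntQ a b l false)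
        ≤ (64 * t * 2 ^ t * m : ℝ) * (cntQ a b l false * η) :=
          mul_le_mul_of_nonneg_left h7 hD.le
      _ = (64 * t * 2 ^ t * m : ℝ) * η * cntQ a b l false := by ring
      _ = cntQ a b l false := by
          rw [hη, mul_one_div, div_self hD.ne', one_mul]
  exact_mod_cast h6

/-- The real form of the bound of a set without boxes. -/
theorem cnt_root {t m H : ℕ} {x P K : ℝ} (ht : 1 ≤ t) (hm : 1 ≤ m) (hK : 0 < K) (hx : 0 ≤ x)
    (hP : 0 ≤ P)
    (hH : (m : ℝ) ≤ K * H) (h : x ^ (2 ^ t) * H ≤ t * P ^ (2 ^ t)) :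
    x ≤ ((K * t) ^ (1 / 2 ^ t : ℝ) * (m : ℝ) ^ (-(1 / 2 ^ t : ℝ))) * P := by
  have ht0 : (0 : ℝ) < t := by exact_mod_cast ht
  have hm0 : (0 : ℝ) < m := by exact_mod_cast hm
  have hn : (2 : ℕ) ^ t ≠ 0 := by positivity
  have hcast : ((2 ^ t : ℕ) : ℝ) = (2 : ℝ) ^ t := by push_cast; ring
  have hKt : 0 < K * t := by positivity
  refine (pow_le_pow_iff_left₀ hx (by positivity) hn).1 ?_
  rw [mul_pow, mul_pow, ← Real.rpow_natCast (x := (K * t) ^ (1 / 2 ^ t : ℝ)),
    ← Real.rpow_natCast (x := (m : ℝ) ^ (-(1 / 2 ^ t : ℝ))), ← Real.rpow_mul hKt.le,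
    ← Real.rpow_mul hm0.le, hcast, neg_mul, one_div_mul_cancel (by positivity), Real.rpow_one,
    Real.rpow_neg_one]
  rw [mul_assoc, mul_assoc, mul_comm (m : ℝ)⁻¹, ← mul_assoc, ← mul_assoc, ← div_eq_mul_inv,
    le_div_iff₀ hm0]
  calc x ^ 2 ^ t * m ≤ x ^ 2 ^ t * (K * H) := by gcongr
    _ = K * (x ^ 2 ^ t * H) := by ring
    _ ≤ K * (t * P ^ 2 ^ t) := by gcongr
    _ = K * t * P ^ 2 ^ t := by ring

/-- The final estimate. -/
theorem cnt_final {t : ℕ} {η y ρ : ℝ} (hη : 0 < η) (hη1 : η ≤ 1) (hy : 1 ≤ y) (hρ : 0 ≤ ρ) :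
    ρ * ((1 + η) ^ t * y * (1 + Real.log ((1 + η) ^ t * y)) ^ t) ≤
      ρ * (2 ^ t * y * ((1 + t) ^ t * (1 + Real.log y) ^ t)) := by
  have h1 : (1 + η) ^ t ≤ 2 ^ t := pow_le_pow_left₀ (by linarith) (by linarith) t
  have h1' : 1 ≤ (1 + η) ^ t := one_le_pow₀ (by linarith)
  have h1y : 1 ≤ (1 + η) ^ t * y := by nlinarith
  have h2 : Real.log ((1 + η) ^ t * y) ≤ t + Real.log y := by
    rw [Real.log_mul (by positivity) (by linarith), Real.log_pow]
    have h3 : Real.log (1 + η) ≤ 1 := by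
      have := Real.log_le_sub_one_of_pos (show 0 < 1 + η by linarith)
      linarith
    have h4 : (t : ℝ) * Real.log (1 + η) ≤ t * 1 :=
      mul_le_mul_of_nonneg_left h3 (Nat.cast_nonneg t)
    linarith
  have h5 : 0 ≤ Real.log y := Real.log_nonneg hy
  have h6 : 0 ≤ Real.log ((1 + η) ^ t * y) := Real.log_nonneg h1y
  have h7 : (1 + Real.log ((1 + η) ^ t * y)) ^ t ≤ (1 + t) ^ t * (1 + Real.log y) ^ t := by
    rw [← mul_pow]
    refine pow_le_pow_left₀ (by linarith) ?_ t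
    have h8 : (0 : ℝ) ≤ t * Real.log y := mul_nonneg (Nat.cast_nonneg t) h5
    nlinarith
  refine mul_le_mul_of_nonneg_left ?_ hρ
  exact mul_le_mul (mul_le_mul_of_nonneg_right h1 (by linarith)) h7 (by positivity)
    (by positivity)

theorem pf_CNT (hNBX : T_NBX) (hHYP : T_HYP) (hCEL : T_CEL) (hPTN : T_PTN) (hDVT : T_DVT) :
    T_CNT := by
  intro t ht
  obtain ⟨M, hM⟩ := hNBX t ht
  have ht0 : (0 : ℝ) < t := by exact_mod_cast ht
  obtain ⟨D, hD⟩ : ∃ D : ℕ, D = 64 * t * 2 ^ t := ⟨_, rfl⟩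
  have hD0 : 1 ≤ D := by
    rw [hD]
    exact Nat.one_le_iff_ne_zero.2 (by positivity)
  have hDR : (D : ℝ) = 64 * t * 2 ^ t := by rw [hD]; push_cast; ring
  have hDp : (1 : ℝ) ≤ D := by exact_mod_cast hD0
  refine ⟨(8 * D * t) ^ (1 / 2 ^ t : ℝ) * 2 ^ t * (1 + t) ^ t, max M (4 * D), by positivity,
    le_trans (by omega) (le_max_right _ _), fun u L hL m y hm hy => ?_⟩
  have hMm : M ≤ m := (le_max_left _ _).trans hm
  have hDm : 4 * D ≤ m := (le_max_right _ _).trans hm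
  have hm1 : 1 ≤ m := by omega
  have hm1R : (1 : ℝ) ≤ m := by exact_mod_cast hm1
  have hDmR : (4 : ℝ) * D ≤ m := by exact_mod_cast hDm
  have hsub : TS L m t y ⊆ {q : Fin t → ℕ | (∀ l, 1 ≤ q l) ∧ ((∏ l, q l : ℕ) : ℝ) ≤ y} :=
    fun q hq => ⟨fun l => (hq.2.1 l).1.one_le, hq.2.2.1⟩
  have hfin : (TS L m t y).Finite := (hDVT t y hy).1.subset hsub
  refine ⟨hfin, ?_⟩
  rw [Set.ncard_eq_toFinset_card _ hfin]
  have hXm : ∀ q, q ∈ hfin.toFinset ↔ q ∈ TS L m t y := fun q => Set.Finite.mem_toFinset _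
  obtain ⟨X, hX⟩ : ∃ X : Finset (Fin t → ℕ), X = hfin.toFinset := ⟨_, rfl⟩
  rw [← hX] at hXm ⊢
  obtain ⟨η, hη⟩ : ∃ η : ℝ, η = 1 / (64 * t * 2 ^ t * m) := ⟨_, rfl⟩
  have hηD : η = 1 / (D * m) := by rw [hη, hDR]
  have hDm1 : (1 : ℝ) ≤ D * m := by nlinarith
  have hη0 : 0 < η := by rw [hηD]; positivity
  have hη1 : η ≤ 1 := by
    rw [hηD, div_le_one (by positivity)]
    exact hDm1
  obtain ⟨ρ, hρ⟩ : ∃ ρ : ℝ, ρ = (8 * D * t) ^ (1 / 2 ^ t : ℝ) * (m : ℝ) ^ (-(1 / 2 ^ t : ℝ)) :=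
    ⟨_, rfl⟩
  have hρ0 : 0 ≤ ρ := by rw [hρ]; positivity
  obtain ⟨hC1, hC2, hC3⟩ := hCEL η hη0 hη1
  have hcell : ∀ a : Fin t → ℕ, ((X.filter fun q => ∀ l, cel η (q l) = a l).card : ℝ) ≤
      ρ * ∏ l, ((Cl η (a l)).card : ℝ) := by
    intro a
    rcases (X.filter fun q => ∀ l, cel η (q l) = a l).eq_empty_or_nonempty with h0 | ⟨q₀, hq₀⟩
    · rw [h0, Finset.card_empty, Nat.cast_zero]
      exact mul_nonneg hρ0 (Finset.prod_nonneg fun _ _ => Nat.cast_nonneg _)
    · rw [Finset.mem_filter, hXm] at hq₀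
      have hcard : ∀ l, m / (4 * D) ≤ (Cl η (a l)).card := by
        intro l
        have h1 : q₀ l ∈ Cl η (a l) := by
          have := hC1 _ (hq₀.1.2.1 l).1.one_le
          rwa [hq₀.2 l] at this
        have h2 := hC3 _ _ h1
        have h3 : ((m : ℝ)) ^ 2 ≤ q₀ l := by exact_mod_cast (hq₀.1.2.1 l).2.le
        have h4 : (m : ℝ) / (4 * D) ≤ η * q₀ l / 2 - 1 := by
          have h5 : (m : ℝ) / D ≤ η * q₀ l := by
            calc (m : ℝ) / D = η * (m : ℝ) ^ 2 := by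
                  rw [hηD]
                  field_simp
              _ ≤ η * q₀ l := mul_le_mul_of_nonneg_left h3 hη0.le
          have h6 : (4 : ℝ) ≤ m / D := by
            rw [le_div_iff₀ (by positivity)]
            exact hDmR
          have h7 : (m : ℝ) / (4 * D) = m / D / 4 := by
            field_simp
          rw [h7]
          linarith
        have h8 : ((m / (4 * D) : ℕ) : ℝ) ≤ (m : ℝ) / (4 * D) := by
          have := Nat.cast_div_le (α := ℝ) (m := m) (n := 4 * D)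
          push_cast at this
          exact this
        exact_mod_cast h8.trans (h4.trans h2)
      have hpi : (X.filter fun q => ∀ l, cel η (q l) = a l) ⊆
          Fintype.piFinset fun l => Cl η (a l) := by
        intro q hq
        rw [Finset.mem_filter, hXm] at hq
        rw [Fintype.mem_piFinset]
        intro l
        have := hC1 _ (hq.1.2.1 l).1.one_le
        rwa [hq.2 l] at this
      have hno := cnt_nobox (y := y) ht hm1 hη hη0 hη1 hL hMm hM hCEL
        (X.filter fun q => ∀ l, cel η (q l) = a l) a (fun q hq => by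
          rw [Finset.mem_filter, hXm] at hq
          exact hq)
      have hh := hHYP t (fun l => Cl η (a l)) _ (m / (4 * D)) hpi hcard hno
      rw [hρ]
      refine cnt_root ht hm1 (by positivity) (Nat.cast_nonneg _)
        (Finset.prod_nonneg fun _ _ => Nat.cast_nonneg _) ?_ hh
      have h9 : m ≤ 8 * D * (m / (4 * D)) := by
        have h10 : 1 ≤ m / (4 * D) := (Nat.one_le_div_iff (by omega)).2 hDm
        have h11 : m < 4 * D * (m / (4 * D)) + 4 * D := by
          have := Nat.lt_mul_div_succ m (show 0 < 4 * D by omega)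
          rw [mul_add, mul_one] at this
          exact this
        nlinarith
      exact_mod_cast h9
  have hP := hPTN t η y ρ X hη0 hη1 hy hρ0 (fun q hq => hsub ((hXm q).1 hq)) hcell
  refine hP.trans ((cnt_final hη0 hη1 hy hρ0).trans (le_of_eq ?_))
  rw [hρ]
  ring

end Pool.Agent.H59.PLD
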