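import Pool.Agent.H23.PL.Targets

/-!
# Few squares with a splitting
-/

set_option autoImplicit false

open Finset Polynomial Pool.Agent.H23.PL

namespace Pool.Agent.H59.PLD

theorem sum_eventually (K δ η : ℝ) (n : ℕ) (hK : 0 ≤ K) (hδ : 0 < δ) (hη : 0 < η) :
    ∀ᶠ x : ℝ in Filter.atTop, K * (1 + Real.log x) ^ n * x ^ (-δ) ≤ η := by
  have h1 := isLittleO_log_rpow_rpow_atTop (n : ℝ) hδ
  have h2 := h1.bound (show 0 < η / (K * 2 ^ n + 1) by positivity)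
  filter_upwards [h2, Filter.eventually_ge_atTop (Real.exp 1)] with x hx hx1
  have hx0 : 0 < x := (Real.exp_pos 1).trans_le hx1
  have hl : 1 ≤ Real.log x := by
    rw [← Real.log_exp 1]
    exact Real.log_le_log (Real.exp_pos 1) hx1
  rw [Real.rpow_natCast, Real.norm_of_nonneg (by positivity),
    Real.norm_of_nonneg (Real.rpow_nonneg hx0.le _)] at hx
  have h3 : (1 + Real.log x) ^ n ≤ 2 ^ n * Real.log x ^ n := by
    rw [← mul_pow]
    exact pow_le_pow_left₀ (by linarith) (by linarith) n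
  have hd : 0 < x ^ δ := Real.rpow_pos_of_pos hx0 δ
  rw [Real.rpow_neg hx0.le, ← div_eq_mul_inv, div_le_iff₀ hd]
  calc K * (1 + Real.log x) ^ n ≤ K * (2 ^ n * Real.log x ^ n) := by gcongr
    _ = K * 2 ^ n * Real.log x ^ n := by ring
    _ ≤ K * 2 ^ n * (η / (K * 2 ^ n + 1) * x ^ δ) := by gcongr
    _ = (K * 2 ^ n / (K * 2 ^ n + 1)) * (η * x ^ δ) := by ring
    _ ≤ 1 * (η * x ^ δ) := by
        gcongr
        rw [div_le_one (by positivity)]
        linarith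
    _ = η * x ^ δ := one_mul _

/-- The tuple of the prime factors. -/
theorem sum_tuple {L : ℕ → ℕ} {c : ℝ} {x r : ℕ} (hc : 0 < c) (hx : 1 < x) (hr : r ∈ Icc 1 x)
    (hs : Spl c x r) (hsq : IsSquare (L r)) : ∃ t m : ℕ, ∃ q : Fin t → ℕ, 1 ≤ t ∧
      (t : ℝ) ≤ 1 / c ∧ m ∈ Icc 1 x ∧ (x : ℝ) ^ c ≤ m ∧ q ∈ TS L m t (x / m) ∧
      r = m * ∏ l, q l := by
  obtain ⟨m, n, rfl, hm, hn, hns, hnp⟩ := hs
  rw [Finset.mem_Icc] at hr
  have hm0 : 0 < m := Nat.pos_of_ne_zero fun h => by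
    rw [h, zero_mul] at hr
    omega
  have hn0 : 0 < n := by omega
  have hmx : m ≤ x := (Nat.le_mul_of_pos_right m hn0).trans hr.2
  obtain ⟨t, ht⟩ : ∃ t, t = n.primeFactors.card := ⟨_, rfl⟩
  let e := n.primeFactors.orderEmbOfFin ht.symm
  have hprod : ∏ l, e l = n := by
    have h1 : ∏ p ∈ n.primeFactors, p = n := Nat.prod_primeFactors_of_squarefree hns
    rw [← Finset.image_orderEmbOfFin_univ n.primeFactors ht.symm,
      Finset.prod_image fun a _ b _ h => e.injective h] at h1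
    exact h1
  have hmem : ∀ l, (e l).Prime ∧ m ^ 2 < e l := fun l => by
    have h1 : e l ∈ n.primeFactors := Finset.orderEmbOfFin_mem _ _ _
    have h2 := Nat.prime_of_mem_primeFactors h1
    exact ⟨h2, hnp _ h2 (Nat.dvd_of_mem_primeFactors h1)⟩
  have ht1 : 1 ≤ t := by
    rw [ht]
    exact Finset.card_pos.2 (Nat.nonempty_primeFactors.2 hn)
  have hle : m ^ (2 * t) ≤ n := by
    calc m ^ (2 * t) = ∏ _l : Fin t, m ^ 2 := by
          rw [Finset.prod_const, Finset.card_univ, Fintype.card_fin, ← pow_mul]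
      _ ≤ ∏ l, e l := Finset.prod_le_prod' fun l _ => (hmem l).2.le
      _ = n := hprod
  refine ⟨t, m, fun l => e l, ht1, ?_, Finset.mem_Icc.2 ⟨hm0, hmx⟩, hm,
    ⟨fun a b h => e.strictMono h, hmem, ?_, ?_⟩, ?_⟩
  · have hx1 : (1 : ℝ) < x := by exact_mod_cast hx
    have h1 : (x : ℝ) ^ (c * t) ≤ (x : ℝ) ^ (1 : ℝ) := by
      calc (x : ℝ) ^ (c * t) = ((x : ℝ) ^ c) ^ t := by
            rw [Real.rpow_mul (by linarith), Real.rpow_natCast]
        _ ≤ (m : ℝ) ^ t := pow_le_pow_left₀ (by positivity) hm t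
        _ ≤ (m : ℝ) ^ (2 * t) := pow_le_pow_right₀ (by exact_mod_cast hm0) (by omega)
        _ ≤ (n : ℝ) := by exact_mod_cast hle
        _ ≤ (x : ℝ) := by exact_mod_cast (Nat.le_mul_of_pos_left n hm0).trans hr.2
        _ = (x : ℝ) ^ (1 : ℝ) := (Real.rpow_one _).symm
    have h2 := (Real.rpow_le_rpow_left_iff hx1).1 h1
    rw [le_div_iff₀ hc]
    linarith
  · rw [hprod, le_div_iff₀ (by exact_mod_cast hm0 : (0 : ℝ) < m)]
    have : n * m ≤ x := by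
      rw [mul_comm]
      exact hr.2
    exact_mod_cast this
  · rw [hprod]
    exact hsq
  · rw [hprod]

theorem sum_harm (x : ℕ) : ∑ m ∈ Icc 1 x, 1 / (m : ℝ) ≤ 1 + Real.log x := by
  have h := harmonic_le_one_add_log x
  rw [harmonic_eq_sum_Icc] at h
  push_cast at h
  simpa only [one_div] using h

theorem sum_mono {a b b' d d' : ℝ} (ha : 0 ≤ a) (hb' : 0 ≤ b') (hd : 0 ≤ d)
    (h1 : b ≤ b') (h2 : d ≤ d') : a * b * d ≤ a * b' * d' :=
  mul_le_mul (mul_le_mul_of_nonneg_left h1 ha) h2 hd (mul_nonneg ha hb')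

/-- The bound for one pair. -/
theorem sum_pair {N0 C0 δ c : ℝ} {t T m x : ℕ} (hC : 0 < C0)
    (hδ : δ = c / 2 ^ T) (ht : t ≤ T) (hm : m ∈ Icc 1 x) (hmc : (x : ℝ) ^ c ≤ m)
    (hb : N0 ≤
        C0 * (x / m) * (1 + Real.log (x / m)) ^ t * (m : ℝ) ^ (-(1 / 2 ^ t : ℝ))) :
    N0 ≤
      C0 * (x * (1 + Real.log x) ^ T * (x : ℝ) ^ (-δ)) * (1 / m) := by
  rw [Finset.mem_Icc] at hm
  have hm0 : (1 : ℝ) ≤ m := by exact_mod_cast hm.1
  have hmx : (m : ℝ) ≤ x := by exact_mod_cast hm.2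
  have hmp : (0 : ℝ) < m := by linarith
  have hxp : (0 : ℝ) < x := by linarith
  have hlog : 0 ≤ Real.log x := Real.log_nonneg (by linarith)
  have hy : (1 : ℝ) ≤ x / m := by
    rw [one_le_div hmp]
    exact hmx
  have hyx : (x : ℝ) / m ≤ x := div_le_self hxp.le hm0
  have h4 : (1 + Real.log (x / m)) ^ t ≤ (1 + Real.log x) ^ T := by
    have h5 : Real.log (x / m) ≤ Real.log x := Real.log_le_log (by linarith) hyx
    have h6 : 0 ≤ Real.log (x / m) := Real.log_nonneg hy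
    calc (1 + Real.log (x / m)) ^ t ≤ (1 + Real.log x) ^ t :=
          pow_le_pow_left₀ (by linarith) (by linarith) t
      _ ≤ (1 + Real.log x) ^ T := pow_le_pow_right₀ (by linarith) ht
  have h7 : (m : ℝ) ^ (-(1 / 2 ^ t : ℝ)) ≤ (x : ℝ) ^ (-δ) := by
    calc (m : ℝ) ^ (-(1 / 2 ^ t : ℝ)) ≤ (m : ℝ) ^ (-(1 / 2 ^ T : ℝ)) := by
          refine Real.rpow_le_rpow_of_exponent_le hm0 (neg_le_neg ?_)
          exact one_div_le_one_div_of_le (by positivity)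
            (pow_le_pow_right₀ (by norm_num) ht)
      _ ≤ ((x : ℝ) ^ c) ^ (-(1 / 2 ^ T : ℝ)) :=
          Real.rpow_le_rpow_of_nonpos (Real.rpow_pos_of_pos hxp c) hmc
            (by rw [neg_nonpos]; positivity)
      _ = (x : ℝ) ^ (-δ) := by
          rw [← Real.rpow_mul hxp.le, hδ]
          ring_nf
  calc N0
      ≤ C0 * (x / m) * (1 + Real.log (x / m)) ^ t * (m : ℝ) ^ (-(1 / 2 ^ t : ℝ)) := hb
    _ ≤ C0 * (x / m) * (1 + Real.log x) ^ T * (x : ℝ) ^ (-δ) :=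
        sum_mono (mul_nonneg hC.le (by linarith)) (pow_nonneg (by linarith) T)
          (Real.rpow_nonneg hmp.le _) h4 h7
    _ = C0 * (x * (1 + Real.log x) ^ T * (x : ℝ) ^ (-δ)) * (1 / m) := by ring

/-- The covering finset. -/
noncomputable def sumF (L : ℕ → ℕ) (x t m : ℕ) : Finset ℕ :=
  letI := Classical.propDecidable (TS L m t ((x : ℝ) / m)).Finite
  if h : (TS L m t ((x : ℝ) / m)).Finite then h.toFinset.image fun q => m * ∏ l, q l else ∅

theorem sumF_card {L : ℕ → ℕ} {x t m : ℕ} (h : (TS L m t ((x : ℝ) / m)).Finite) :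
    (sumF L x t m).card ≤ (TS L m t ((x : ℝ) / m)).ncard := by
  unfold sumF
  rw [dif_pos h, Set.ncard_eq_toFinset_card _ h]
  exact Finset.card_image_le

theorem sumF_mem {L : ℕ → ℕ} {x t m : ℕ} (h : (TS L m t ((x : ℝ) / m)).Finite) {q : Fin t → ℕ}
    (hq : q ∈ TS L m t ((x : ℝ) / m)) : m * ∏ l, q l ∈ sumF L x t m := by
  unfold sumF
  rw [dif_pos h, Finset.mem_image]
  exact ⟨q, (Set.Finite.mem_toFinset _).2 hq, rfl⟩

theorem sum_total {A : Finset ℕ} {F : ℕ → ℕ → Finset ℕ} {T : ℕ} {B : Finset ℕ}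
    (hcover : A ⊆ (Icc 1 T).biUnion fun t => B.biUnion fun m => F t m) :
    (A.card : ℝ) ≤ ∑ t ∈ Icc 1 T, ∑ m ∈ B, ((F t m).card : ℝ) := by
  have h1 : A.card ≤ ∑ t ∈ Icc 1 T, ∑ m ∈ B, (F t m).card :=
    (Finset.card_le_card hcover).trans
      (Finset.card_biUnion_le.trans (Finset.sum_le_sum fun t _ => Finset.card_biUnion_le))
  exact_mod_cast h1

open Classical in
theorem pf_SUM (hCNT : T_CNT) : T_SUM := by
  intro u L hL c η hc hc1 hη
  have hall : ∀ t : ℕ, ∃ (C : ℝ) (M : ℕ), 0 < C ∧ (1 ≤ t → ∀ (m : ℕ) (y : ℝ), M ≤ m → 1 ≤ y →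
      (TS L m t y).Finite ∧ ((TS L m t y).ncard : ℝ) ≤
        C * y * (1 + Real.log y) ^ t * (m : ℝ) ^ (-(1 / 2 ^ t : ℝ))) := by
    intro t
    by_cases ht : 1 ≤ t
    · obtain ⟨C, M, h1, -, h3⟩ := hCNT t ht
      exact ⟨C, M, h1, fun _ => h3 u L hL⟩
    · exact ⟨1, 1, one_pos, fun h => (ht h).elim⟩
  choose C M hC hCM using hall
  obtain ⟨T, hT⟩ : ∃ T : ℕ, T = ⌈1 / c⌉₊ := ⟨_, rfl⟩
  obtain ⟨δ, hδ⟩ : ∃ δ : ℝ, δ = c / 2 ^ T := ⟨_, rfl⟩
  have hδ0 : 0 < δ := by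
    rw [hδ]
    positivity
  obtain ⟨K, hK⟩ : ∃ K : ℝ, K = ∑ t ∈ Icc 1 T, C t := ⟨_, rfl⟩
  have hK0 : 0 ≤ K := by
    rw [hK]
    exact Finset.sum_nonneg fun t _ => (hC t).le
  obtain ⟨N, hN⟩ : ∃ N : ℕ, N = ∑ t ∈ Icc 1 T, M t := ⟨_, rfl⟩
  have hMN : ∀ t ∈ Icc 1 T, M t ≤ N := fun t ht => by
    rw [hN]
    exact Finset.single_le_sum (f := M) (fun _ _ => Nat.zero_le _) ht
  have hev := (sum_eventually K δ η (T + 1) hK0 hδ0 hη).and
    ((tendsto_rpow_atTop hc).eventually_ge_atTop (N : ℝ))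
  obtain ⟨X, hX⟩ := Filter.eventually_atTop.1 (tendsto_natCast_atTop_atTop.eventually hev)
  refine ⟨max X 2, fun x hx => ?_⟩
  obtain ⟨hx1, hx2⟩ := hX x ((le_max_left _ _).trans hx)
  have hx3 : 1 < x := lt_of_lt_of_le (by norm_num) ((le_max_right _ _).trans hx)
  have hxR : (1 : ℝ) < x := by exact_mod_cast hx3
  have hlog : 0 ≤ Real.log x := Real.log_nonneg hxR.le
  have hF : ∀ t ∈ Icc 1 T, ∀ m ∈ (Icc 1 x).filter (fun m : ℕ => (x : ℝ) ^ c ≤ m),
      ((sumF L x t m).card : ℝ) ≤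
        C t * (x * (1 + Real.log x) ^ T * (x : ℝ) ^ (-δ)) * (1 / m) ∧
      (TS L m t ((x : ℝ) / m)).Finite := by
    intro t ht m hm
    rw [Finset.mem_filter] at hm
    have ht' := Finset.mem_Icc.1 ht
    have hm1 := Finset.mem_Icc.1 hm.1
    have hy : (1 : ℝ) ≤ x / m := by
      rw [one_le_div (by exact_mod_cast hm1.1)]
      exact_mod_cast hm1.2
    have hMm : M t ≤ m := by
      have h1 : (N : ℝ) ≤ m := hx2.trans hm.2
      exact (hMN t ht).trans (by exact_mod_cast h1)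
    obtain ⟨h1, h2⟩ := hCM t ht'.1 m (x / m) hMm hy
    refine ⟨le_trans (by exact_mod_cast sumF_card h1)
      (sum_pair (hC t) hδ ht'.2 hm.1 hm.2 h2), h1⟩
  have hcover : ((Icc 1 x).filter fun r => Spl c x r ∧ IsSquare (L r)) ⊆
      (Icc 1 T).biUnion fun t =>
        ((Icc 1 x).filter (fun m : ℕ => (x : ℝ) ^ c ≤ m)).biUnion fun m => sumF L x t m := by
    intro r hr
    rw [Finset.mem_filter] at hr
    obtain ⟨t, m, q, h1, h2, h3, h4, h5, h6⟩ := sum_tuple hc hx3 hr.1 hr.2.1 hr.2.2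
    have ht : t ∈ Icc 1 T := by
      rw [Finset.mem_Icc, hT]
      exact ⟨h1, by exact_mod_cast h2.trans (Nat.le_ceil _)⟩
    have hm : m ∈ (Icc 1 x).filter (fun m : ℕ => (x : ℝ) ^ c ≤ m) :=
      Finset.mem_filter.2 ⟨h3, h4⟩
    rw [Finset.mem_biUnion]
    refine ⟨t, ht, Finset.mem_biUnion.2 ⟨m, hm, ?_⟩⟩
    rw [h6]
    exact sumF_mem (hF t ht m hm).2 h5
  calc (((Icc 1 x).filter fun r => Spl c x r ∧ IsSquare (L r)).card : ℝ)
      ≤ ∑ t ∈ Icc 1 T, ∑ m ∈ (Icc 1 x).filter (fun m : ℕ => (x : ℝ) ^ c ≤ m),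
          ((sumF L x t m).card : ℝ) := sum_total hcover
    _ ≤ ∑ t ∈ Icc 1 T, ∑ m ∈ (Icc 1 x).filter (fun m : ℕ => (x : ℝ) ^ c ≤ m),
          C t * (x * (1 + Real.log x) ^ T * (x : ℝ) ^ (-δ)) * (1 / m) :=
        Finset.sum_le_sum fun t ht => Finset.sum_le_sum fun m hm => (hF t ht m hm).1
    _ ≤ ∑ t ∈ Icc 1 T, C t * (x * (1 + Real.log x) ^ T * (x : ℝ) ^ (-δ)) *
          (1 + Real.log x) := by
        refine Finset.sum_le_sum fun t _ => ?_
        rw [← Finset.mul_sum]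
        refine mul_le_mul_of_nonneg_left ?_ ?_
        · refine le_trans (Finset.sum_le_sum_of_subset_of_nonneg (Finset.filter_subset _ _)
            fun _ _ _ => by positivity) (sum_harm x)
        · have := hC t
          positivity
    _ = x * (K * (1 + Real.log x) ^ (T + 1) * (x : ℝ) ^ (-δ)) := by
        rw [← Finset.sum_mul, ← Finset.sum_mul, ← hK]
        ring
    _ ≤ x * η := by gcongr
    _ = η * x := mul_comm _ _

end Pool.Agent.H59.PLD
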