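import Pool.Agent.H23.PL.Targets
import Pool.Agent.H22.MR.Cheb

/-!
# Mertens, first form
-/

set_option autoImplicit false

open Finset Polynomial Pool.Agent.H23.PL
open scoped ArithmeticFunction.vonMangoldt

namespace Pool.Agent.H59.PLD

theorem log_div_le {p : ℕ} (hp : 2 ≤ p) :
    Real.log p / ((p : ℝ) - 1) ≤ Real.log p / p + 4 * (1 / (p : ℝ) ^ (3 / 2 : ℝ)) := by
  have hp1 : (2 : ℝ) ≤ p := by exact_mod_cast hp
  have hp0 : (0 : ℝ) < p := by linarith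
  have h1 : Real.log p ≤ 2 * √(p : ℝ) := by
    have h2 := Real.log_le_sub_one_of_pos (Real.sqrt_pos.2 hp0)
    have h3 : Real.log p = 2 * Real.log √(p : ℝ) := by
      rw [Real.log_sqrt hp0.le]
      ring
    linarith
  have h4 : (p : ℝ) ^ (3 / 2 : ℝ) = p * √(p : ℝ) := by
    rw [show (3 / 2 : ℝ) = 1 + 1 / 2 by norm_num, Real.rpow_add hp0, Real.rpow_one,
      Real.sqrt_eq_rpow]
  have hs : 0 < √(p : ℝ) := Real.sqrt_pos.2 hp0
  have hss : √(p : ℝ) * √(p : ℝ) = p := Real.mul_self_sqrt hp0.le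
  have hl : 0 ≤ Real.log p := Real.log_nonneg (by linarith)
  rw [h4]
  have h5 : Real.log p / ((p : ℝ) - 1) = Real.log p / p + Real.log p / (p * (p - 1)) := by
    have : (p : ℝ) - 1 ≠ 0 := by linarith
    field_simp
    ring
  have h6 : Real.log p / (p * (p - 1)) ≤ 4 * (1 / (p * √(p : ℝ))) := by
    rw [mul_one_div, div_le_div_iff₀ (mul_pos hp0 (by linarith)) (mul_pos hp0 hs)]
    have h7 : Real.log p * √(p : ℝ) ≤ 4 * (p - 1) := by
      calc Real.log p * √(p : ℝ) ≤ 2 * √(p : ℝ) * √(p : ℝ) :=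
            mul_le_mul_of_nonneg_right h1 hs.le
        _ = 2 * p := by rw [mul_assoc, hss]
        _ ≤ 4 * (p - 1) := by linarith
    nlinarith [mul_le_mul_of_nonneg_left h7 hp0.le]
  linarith

theorem pf_MR1 : T_MR1 := by
  have hsum : Summable fun n : ℕ => 1 / (n : ℝ) ^ (3 / 2 : ℝ) :=
    Real.summable_one_div_nat_rpow.2 (by norm_num)
  refine ⟨6 + 4 * ∑' n : ℕ, 1 / (n : ℝ) ^ (3 / 2 : ℝ), ?_, fun y hy => ?_⟩
  · have : 0 ≤ ∑' n : ℕ, 1 / (n : ℝ) ^ (3 / 2 : ℝ) := tsum_nonneg fun n => by positivity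
    linarith
  have hPR : ∀ p ∈ PR 0 y, p.Prime ∧ 1 ≤ p ∧ p ≤ ⌊y⌋₊ := fun p hp => by
    unfold PR at hp
    rw [Finset.mem_filter, Finset.mem_Ioc] at hp
    exact ⟨hp.2, hp.2.one_lt.le, hp.1.2⟩
  have h1 : ∑ p ∈ PR 0 y, Real.log p / ((p : ℝ) - 1) ≤
      ∑ p ∈ PR 0 y, (Real.log p / p + 4 * (1 / (p : ℝ) ^ (3 / 2 : ℝ))) :=
    Finset.sum_le_sum fun p hp => log_div_le (hPR p hp).1.two_le
  have h2 : ∑ p ∈ PR 0 y, Real.log p / (p : ℝ) ≤ ∑ d ∈ Icc 1 ⌊y⌋₊, Λ d / d := by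
    calc ∑ p ∈ PR 0 y, Real.log p / (p : ℝ) = ∑ p ∈ PR 0 y, Λ p / p :=
          Finset.sum_congr rfl fun p hp => by
            rw [ArithmeticFunction.vonMangoldt_apply_prime (hPR p hp).1]
      _ ≤ ∑ d ∈ Icc 1 ⌊y⌋₊, Λ d / d := by
          refine Finset.sum_le_sum_of_subset_of_nonneg (fun p hp => ?_) fun d _ _ =>
            div_nonneg ArithmeticFunction.vonMangoldt_nonneg (Nat.cast_nonneg _)
          rw [Finset.mem_Icc]
          exact (hPR p hp).2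
  have h3 := Pool.Agent.H22.MR.mertens_le_real hy
  have h4 : ∑ p ∈ PR 0 y, 1 / (p : ℝ) ^ (3 / 2 : ℝ) ≤ ∑' n : ℕ, 1 / (n : ℝ) ^ (3 / 2 : ℝ) :=
    hsum.sum_le_tsum _ fun n _ => by positivity
  rw [Finset.sum_add_distrib, ← Finset.mul_sum] at h1
  linarith

end Pool.Agent.H59.PLD
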